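import Pool.Agent.X277.LP.Struct

/-!
# A Leonard pair with `β = 2` that does not come from the equitable basis of `sl₂`

Let `K` be any field of characteristic zero in which `-1` is not a square (for instance `ℚ` or
`ℝ`).  There is a Leonard pair `A, B` on `K⁴` with `β = 2` such that, for every equitable basis
`x, y, z` of `sl₂(K)` and every irreducible `sl₂(K)`-module structure on `K⁴`, the inclusions
`A ∈ span {I, x, y, xy}` and `B ∈ span {I, y, z, yz}` do not both hold.  This disproves the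
statement of the problem (Q1), which is made over an arbitrary field.
-/

open Module Pool.Agent.X277.LP

namespace Pool.Agent.Results.MP_d63bef_al.NonSplit

/-- A square matrix is irreducible tridiagonal. -/
def IrredTridiag {K : Type} [Field K] {n : ℕ} (M : Matrix (Fin n) (Fin n) K) : Prop :=
  (∀ i j : Fin n, (i : ℕ) + 1 < j ∨ (j : ℕ) + 1 < i → M i j = 0) ∧
  (∀ i j : Fin n, (i : ℕ) + 1 = j → M i j ≠ 0 ∧ M j i ≠ 0)

/-- The basis `b` of the space `V` of dimension `d + 1` makes `B` irreducible tridiagonal and `A`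
diagonal. -/
def Splits {K V : Type} [Field K] [AddCommGroup V] [Module K V] {d : ℕ}
    (A B : Module.End K V) (b : Basis (Fin (d + 1)) K V) : Prop :=
  IrredTridiag (LinearMap.toMatrix b b B) ∧ (LinearMap.toMatrix b b A).IsDiag

/-- `A, B` is a Leonard pair on the space `V` of dimension `d + 1`. -/
def IsLeonardPair {K V : Type} [Field K] [AddCommGroup V] [Module K V] (d : ℕ)
    (A B : Module.End K V) : Prop :=
  (∃ b : Basis (Fin (d + 1)) K V, Splits B A b) ∧ (∃ b : Basis (Fin (d + 1)) K V, Splits A B b)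

/-- `β = 2` for the Leonard pair `A, B`: for a basis `b` as in (ii) with diagonal entries
`θ₀, …, θ_d` of `A`, `θ_{i-2} - θ_{i+1} = 3 (θ_{i-1} - θ_i)` for `2 ≤ i ≤ d - 1`. -/
def BetaTwo {K V : Type} [Field K] [AddCommGroup V] [Module K V] (d : ℕ)
    (A B : Module.End K V) : Prop :=
  ∃ b : Basis (Fin (d + 1)) K V, Splits A B b ∧ ∀ i₀ i₁ i₂ i₃ : Fin (d + 1),
    (i₁ : ℕ) = i₀ + 1 → (i₂ : ℕ) = i₀ + 2 → (i₃ : ℕ) = i₀ + 3 →
    LinearMap.toMatrix b b A i₀ i₀ - LinearMap.toMatrix b b A i₃ i₃ =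
      3 * (LinearMap.toMatrix b b A i₁ i₁ - LinearMap.toMatrix b b A i₂ i₂)

/-- The Lie algebra `sl₂` over `K`. -/
abbrev sl2 (K : Type) [Field K] : Type := LieAlgebra.SpecialLinear.sl (Fin 2) K

/-- An equitable basis `x, y, z` of `sl₂`. -/
def IsEquitable {K : Type} [Field K] (e : Basis (Fin 3) K (sl2 K)) : Prop :=
  ⁅e 0, e 1⁆ = (2 : K) • e 0 + (2 : K) • e 1 ∧ ⁅e 1, e 2⁆ = (2 : K) • e 1 + (2 : K) • e 2 ∧
    ⁅e 2, e 0⁆ = (2 : K) • e 2 + (2 : K) • e 0

/-- `A ∈ span {I, x, y, xy}` and `B ∈ span {I, y, z, yz}`. -/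
def InSpans {K V : Type} [Field K] [AddCommGroup V] [Module K V]
    (x y z A B : Module.End K V) : Prop :=
  A ∈ Submodule.span K {1, x, y, x * y} ∧ B ∈ Submodule.span K {1, y, z, y * z}

/-- There are an irreducible `sl₂`-module structure on `V` and an equitable basis
`e 0, e 1, e 2` of `sl₂`, acting on `V` as `x, y, z`, such that `A ∈ span {I, x, y, xy}` and
`B ∈ span {I, y, z, yz}`. -/
def FromModule {K V : Type} [Field K] [AddCommGroup V] [Module K V]
    (A B : Module.End K V) : Prop :=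
  ∃ (_ : LieRingModule (sl2 K) V) (_ : LieModule K (sl2 K) V) (e : Basis (Fin 3) K (sl2 K)),
    LieModule.IsIrreducible K (sl2 K) V ∧ IsEquitable e ∧
      InSpans (LieModule.toEnd K (sl2 K) V (e 0)) (LieModule.toEnd K (sl2 K) V (e 1))
        (LieModule.toEnd K (sl2 K) V (e 2)) A B

/-! ### Arithmetic -/

section Arith

variable {K : Type} [Field K]

lemma root_cases {t : K} (h : t * (t - 1) * (t - 4) * (t - 9) = 0) :
    ∃ n : ℤ, (n = 0 ∨ n = 1 ∨ n = 4 ∨ n = 9) ∧ t = n := by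
  rcases mul_eq_zero.1 h with h | h
  · rcases mul_eq_zero.1 h with h | h
    · rcases mul_eq_zero.1 h with h | h
      · exact ⟨0, by simp, by simpa using h⟩
      · exact ⟨1, by simp, by simpa using sub_eq_zero.1 h⟩
    · exact ⟨4, by simp, by simpa using sub_eq_zero.1 h⟩
  · exact ⟨9, by simp, by simpa using sub_eq_zero.1 h⟩

lemma orient [CharZero K] {t0 t1 t2 t3 : K} (h0 : t0 * (t0 - 1) * (t0 - 4) * (t0 - 9) = 0)
    (h1 : t1 * (t1 - 1) * (t1 - 4) * (t1 - 9) = 0) (h2 : t2 * (t2 - 1) * (t2 - 4) * (t2 - 9) = 0)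
    (h3 : t3 * (t3 - 1) * (t3 - 4) * (t3 - 9) = 0) (hs : t0 + t1 + t2 + t3 = 14)
    (hd : t0 - 3 * t1 + 3 * t2 - t3 = 0) :
    (t0 = 0 ∧ t1 = 1 ∧ t2 = 4 ∧ t3 = 9) ∨ (t0 = 9 ∧ t1 = 4 ∧ t2 = 1 ∧ t3 = 0) := by
  obtain ⟨n0, c0, rfl⟩ := root_cases h0
  obtain ⟨n1, c1, rfl⟩ := root_cases h1
  obtain ⟨n2, c2, rfl⟩ := root_cases h2
  obtain ⟨n3, c3, rfl⟩ := root_cases h3
  have e1 : n0 + n1 + n2 + n3 = 14 := by exact_mod_cast hs
  have e2 : n0 - 3 * n1 + 3 * n2 - n3 = 0 := by exact_mod_cast hd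
  have : (n0 = 0 ∧ n1 = 1 ∧ n2 = 4 ∧ n3 = 9) ∨ (n0 = 9 ∧ n1 = 4 ∧ n2 = 1 ∧ n3 = 0) := by
    omega
  rcases this with ⟨rfl, rfl, rfl, rfl⟩ | ⟨rfl, rfl, rfl, rfl⟩
  · left; norm_num
  · right; norm_num

lemma arith [CharZero K] (hsq : ¬ IsSquare (-1 : K)) (a0 a1 a2 a3 b0 b1 b2 b3 t0 t1 t2 t3 s0 s1 s2 s3 : K)
    (ht0 : t0 = a0 + 3 * (a2 - a1) - 9 * a3) (ht1 : t1 = a0 + (a2 - a1) - a3)
    (ht2 : t2 = a0 - (a2 - a1) - a3) (ht3 : t3 = a0 - 3 * (a2 - a1) - 9 * a3)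
    (hs0 : s0 = b0 + 3 * (b1 - b2) - 9 * b3) (hs1 : s1 = b0 + (b1 - b2) - b3)
    (hs2 : s2 = b0 - (b1 - b2) - b3) (hs3 : s3 = b0 - 3 * (b1 - b2) - 9 * b3)
    (T0 : t0 * (t0 - 1) * (t0 - 4) * (t0 - 9) = 0) (T1 : t1 * (t1 - 1) * (t1 - 4) * (t1 - 9) = 0)
    (T2 : t2 * (t2 - 1) * (t2 - 4) * (t2 - 9) = 0) (T3 : t3 * (t3 - 1) * (t3 - 4) * (t3 - 9) = 0)
    (S0 : s0 * (s0 - 1) * (s0 - 4) * (s0 - 9) = 0) (S1 : s1 * (s1 - 1) * (s1 - 4) * (s1 - 9) = 0)
    (S2 : s2 * (s2 - 1) * (s2 - 4) * (s2 - 9) = 0) (S3 : s3 * (s3 - 1) * (s3 - 4) * (s3 - 9) = 0)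
    (hT : t0 + t1 + t2 + t3 = 14) (hS : s0 + s1 + s2 + s3 = 14)
    (E1 : t0 * s0 + t1 * s1 + t2 * s2 + t3 * s3 +
      (-2 * (a1 + 3 * a3)) * (6 * (b2 + 3 * b3)) + (-2 * (a1 + a3)) * (8 * (b2 + b3)) +
      (-2 * (a1 - a3)) * (6 * (b2 - b3)) = -8)
    (E2 : t0 ^ 2 * s0 + t1 ^ 2 * s1 + t2 ^ 2 * s2 + t3 ^ 2 * s3 +
      (-2 * (a1 + 3 * a3)) * (6 * (b2 + 3 * b3)) * (t0 + t1) +
      (-2 * (a1 + a3)) * (8 * (b2 + b3)) * (t1 + t2) +
      (-2 * (a1 - a3)) * (6 * (b2 - b3)) * (t2 + t3) = -84) : False := by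
  have hd : t0 - 3 * t1 + 3 * t2 - t3 = 0 := by rw [ht0, ht1, ht2, ht3]; ring
  have hd' : s0 - 3 * s1 + 3 * s2 - s3 = 0 := by rw [hs0, hs1, hs2, hs3]; ring
  have k3 : a3 = -(1 / 16) * (t0 - t1 - t2 + t3) := by rw [ht0, ht1, ht2, ht3]; ring
  have k3' : b3 = -(1 / 16) * (s0 - s1 - s2 + s3) := by rw [hs0, hs1, hs2, hs3]; ring
  have fin : ∀ c1 c2 : K, c2 ^ 2 - 4 * c1 = -16 → (4 * a1) * (4 * b2) = c1 →
      4 * a1 + 4 * b2 = c2 → False := by
    intro c1 c2 hc h1 h2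
    apply hsq
    refine ⟨a1 - b2, ?_⟩
    linear_combination -(1 / 16) * (4 * a1 + 4 * b2 + c2) * h2 + (1 / 4) * h1 - (1 / 16) * hc
  clear ht0 ht1 ht2 ht3 hs0 hs1 hs2 hs3
  rcases orient T0 T1 T2 T3 hT hd with ⟨rfl, rfl, rfl, rfl⟩ | ⟨rfl, rfl, rfl, rfl⟩ <;>
    rcases orient S0 S1 S2 S3 hS hd' with ⟨rfl, rfl, rfl, rfl⟩ | ⟨rfl, rfl, rfl, rfl⟩
  · have k : a3 = -(1 / 4) := by rw [k3]; norm_num
    have k' : b3 = -(1 / 4) := by rw [k3']; norm_num
    subst k k'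
    refine fin 53 14 (by norm_num) ?_ ?_
    · linear_combination (-1 / 18) * E1 + (-1 / 18) * E2
    · linear_combination (31 / 90) * E1 + (-1 / 18) * E2
  · have k : a3 = -(1 / 4) := by rw [k3]; norm_num
    have k' : b3 = -(1 / 4) := by rw [k3']; norm_num
    subst k k'
    refine fin 5 2 (by norm_num) ?_ ?_
    · linear_combination (-1 / 18) * E1 + (-1 / 18) * E2
    · linear_combination (31 / 90) * E1 + (-1 / 18) * E2
  · have k : a3 = -(1 / 4) := by rw [k3]; norm_num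
    have k' : b3 = -(1 / 4) := by rw [k3']; norm_num
    subst k k'
    refine fin 5 2 (by norm_num) ?_ ?_
    · linear_combination (-67 / 90) * E1 + (1 / 18) * E2
    · linear_combination (-31 / 90) * E1 + (1 / 18) * E2
  · have k : a3 = -(1 / 4) := by rw [k3]; norm_num
    have k' : b3 = -(1 / 4) := by rw [k3']; norm_num
    subst k k'
    refine fin 29 (-10) (by norm_num) ?_ ?_
    · linear_combination (-67 / 90) * E1 + (1 / 18) * E2
    · linear_combination (-31 / 90) * E1 + (1 / 18) * E2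

end Arith

/-! ### The pair -/

section Pair

variable {K : Type} [Field K]

/-- The basis given by an invertible matrix. -/
lemma exists_basis {n : ℕ} (P Q : Matrix (Fin n) (Fin n) K) (h : P * Q = 1) (h' : Q * P = 1) :
    ∃ b : Basis (Fin n) K (Fin n → K), ∀ M : Matrix (Fin n) (Fin n) K,
      LinearMap.toMatrix b b (Matrix.toLin' M) = Q * M * P := by
  refine ⟨(Pi.basisFun K (Fin n)).map (Matrix.toLin'OfInv h' h), fun M => ?_⟩
  ext i j
  rw [LinearMap.toMatrix_apply]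
  simp only [Matrix.toLin'OfInv, Basis.map_apply, Basis.map_repr]
  simp [Matrix.mulVec_mulVec, Matrix.mulVec, Matrix.mul_apply, dotProduct]

/-- The matrix of `A`. -/
def MA (K : Type) [Field K] : Matrix (Fin 4) (Fin 4) K :=
  !![0, 0, 0, 0; 1, 1, 0, 0; 0, 1, 4, 0; 0, 0, 1, 9]

/-- The matrix of `B`. -/
def MB (K : Type) [Field K] : Matrix (Fin 4) (Fin 4) K :=
  !![0, -15, 0, 0; 0, 1, -40, 0; 0, 0, 4, -51; 0, 0, 0, 9]

/-- Eigenvectors of `A`. -/
def PA (K : Type) [Field K] : Matrix (Fin 4) (Fin 4) K :=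
  !![-36, 0, 0, 0; 36, 24, 0, 0; -9, -8, -5, 0; 1, 1, 1, 1]

/-- The inverse of `PA`. -/
def QA (K : Type) [Field K] : Matrix (Fin 4) (Fin 4) K :=
  !![-1/36, 0, 0, 0; 1/24, 1/24, 0, 0; -1/60, -1/15, -1/5, 0; 1/360, 1/40, 1/5, 1]

/-- Eigenvectors of `B`. -/
def PB (K : Type) [Field K] : Matrix (Fin 4) (Fin 4) K :=
  !![1, -15, 150, -425; 0, 1, -40, 255; 0, 0, 3, -51; 0, 0, 0, 5]

/-- The inverse of `PB`. -/
def QB (K : Type) [Field K] : Matrix (Fin 4) (Fin 4) K :=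
  !![1, 15, 150, 850; 0, 1, 40/3, 85; 0, 0, 1/3, 17/5; 0, 0, 0, 1/5]

variable [CharZero K]

lemma PA_QA : PA K * QA K = 1 := by
  ext i j
  fin_cases i <;> fin_cases j <;>
    simp [PA, QA, Matrix.mul_apply, Fin.sum_univ_four] <;> norm_num

lemma QA_PA : QA K * PA K = 1 := by
  ext i j
  fin_cases i <;> fin_cases j <;>
    simp [PA, QA, Matrix.mul_apply, Fin.sum_univ_four] <;> norm_num

lemma PB_QB : PB K * QB K = 1 := by
  ext i j
  fin_cases i <;> fin_cases j <;>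
    simp [PB, QB, Matrix.mul_apply, Fin.sum_univ_four] <;> norm_num

lemma QB_PB : QB K * PB K = 1 := by
  ext i j
  fin_cases i <;> fin_cases j <;>
    simp [PB, QB, Matrix.mul_apply, Fin.sum_univ_four] <;> norm_num

lemma A_PA : QA K * MA K * PA K = !![0, 0, 0, 0; 0, 1, 0, 0; 0, 0, 4, 0; 0, 0, 0, 9] := by
  ext i j
  fin_cases i <;> fin_cases j <;>
    simp [PA, QA, MA, Matrix.mul_apply, Fin.sum_univ_four] <;> norm_num

lemma B_PA : QA K * MB K * PA K =
    !![15, 10, 0, 0; -6, -2/3, 25/3, 0; 0, -1/3, 13/15, 51/5; 0, 0, -1/5, -6/5] := by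
  ext i j
  fin_cases i <;> fin_cases j <;>
    simp [PA, QA, MB, Matrix.mul_apply, Fin.sum_univ_four] <;> norm_num

lemma B_PB : QB K * MB K * PB K = !![0, 0, 0, 0; 0, 1, 0, 0; 0, 0, 4, 0; 0, 0, 0, 9] := by
  ext i j
  fin_cases i <;> fin_cases j <;>
    simp [PB, QB, MB, Matrix.mul_apply, Fin.sum_univ_four] <;> norm_num

lemma A_PB : QB K * MA K * PB K =
    !![15, -60, 0, 0; 1, -2/3, -25/3, 0; 0, 1/3, 13/15, -17/5; 0, 0, 3/5, -6/5] := by
  ext i j
  fin_cases i <;> fin_cases j <;>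
    simp [PB, QB, MA, Matrix.mul_apply, Fin.sum_univ_four] <;> norm_num

omit [CharZero K] in
lemma isDiag_four (a b c d : K) :
    (!![a, 0, 0, 0; 0, b, 0, 0; 0, 0, c, 0; 0, 0, 0, d] : Matrix (Fin 4) (Fin 4) K).IsDiag := by
  intro i j hij
  fin_cases i <;> fin_cases j <;> simp_all

lemma splits_A : ∃ b : Basis (Fin (3 + 1)) K (Fin 4 → K),
    Splits (Matrix.toLin' (MA K)) (Matrix.toLin' (MB K)) b ∧
      LinearMap.toMatrix b b (Matrix.toLin' (MA K)) =
        !![0, 0, 0, 0; 0, 1, 0, 0; 0, 0, 4, 0; 0, 0, 0, 9] := by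
  obtain ⟨b, hb⟩ := exists_basis (PA K) (QA K) PA_QA QA_PA
  refine ⟨b, ⟨?_, ?_⟩, ?_⟩
  · rw [hb, B_PA]
    constructor
    · intro i j
      fin_cases i <;> fin_cases j <;> simp
    · intro i j
      fin_cases i <;> fin_cases j <;> simp
  · rw [hb, A_PA]
    exact isDiag_four _ _ _ _
  · rw [hb, A_PA]

lemma splits_B : ∃ b : Basis (Fin (3 + 1)) K (Fin 4 → K),
    Splits (Matrix.toLin' (MB K)) (Matrix.toLin' (MA K)) b := by
  obtain ⟨b, hb⟩ := exists_basis (PB K) (QB K) PB_QB QB_PB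
  refine ⟨b, ?_, ?_⟩
  · rw [hb, A_PB]
    constructor
    · intro i j
      fin_cases i <;> fin_cases j <;> simp
    · intro i j
      fin_cases i <;> fin_cases j <;> simp
  · rw [hb, B_PB]
    exact isDiag_four _ _ _ _

end Pair

/-! ### No module structure -/

section No

variable {K : Type} [Field K] [CharZero K]

omit [CharZero K] in
lemma mem_span_four {E : Type} [AddCommGroup E] [Module K E] {x a b c d : E}
    (h : x ∈ Submodule.span K ({a, b, c, d} : Set E)) :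
    ∃ r s t u : K, x = r • a + s • b + t • c + u • d := by
  rw [Submodule.mem_span_insert] at h
  obtain ⟨r, y, hy, rfl⟩ := h
  rw [Submodule.mem_span_insert] at hy
  obtain ⟨s, z, hz, rfl⟩ := hy
  rw [Submodule.mem_span_pair] at hz
  obtain ⟨t, u, rfl⟩ := hz
  exact ⟨r, s, t, u, by abel⟩

omit [CharZero K] in
lemma lower_sub (t0 t1 t2 t3 l1 l2 l3 c : K) :
    !![t0, 0, 0, 0; l1, t1, 0, 0; 0, l2, t2, 0; 0, 0, l3, t3] - c • (1 : Matrix (Fin 4) (Fin 4) K) =
      !![t0 - c, 0, 0, 0; l1, t1 - c, 0, 0; 0, l2, t2 - c, 0; 0, 0, l3, t3 - c] := by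
  ext i j
  fin_cases i <;> fin_cases j <;> simp

omit [CharZero K] in
lemma upper_sub (t0 t1 t2 t3 l1 l2 l3 c : K) :
    !![t0, l1, 0, 0; 0, t1, l2, 0; 0, 0, t2, l3; 0, 0, 0, t3] - c • (1 : Matrix (Fin 4) (Fin 4) K) =
      !![t0 - c, l1, 0, 0; 0, t1 - c, l2, 0; 0, 0, t2 - c, l3; 0, 0, 0, t3 - c] := by
  ext i j
  fin_cases i <;> fin_cases j <;> simp

omit [CharZero K] in
lemma lower_roots {t0 t1 t2 t3 l1 l2 l3 : K} {L : Matrix (Fin 4) (Fin 4) K}
    (hL : L = !![t0, 0, 0, 0; l1, t1, 0, 0; 0, l2, t2, 0; 0, 0, l3, t3])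
    (h : L * (L - (1 : K) • 1) * (L - (4 : K) • 1) * (L - (9 : K) • 1) = 0) :
    t0 * (t0 - 1) * (t0 - 4) * (t0 - 9) = 0 ∧ t1 * (t1 - 1) * (t1 - 4) * (t1 - 9) = 0 ∧
      t2 * (t2 - 1) * (t2 - 4) * (t2 - 9) = 0 ∧ t3 * (t3 - 1) * (t3 - 4) * (t3 - 9) = 0 := by
  subst hL
  rw [lower_sub, lower_sub, lower_sub] at h
  refine ⟨?_, ?_, ?_, ?_⟩
  · have := congrArg (fun M => M 0 0) h
    simpa [Matrix.mul_apply, Fin.sum_univ_four] using this
  · have := congrArg (fun M => M 1 1) h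
    simpa [Matrix.mul_apply, Fin.sum_univ_four] using this
  · have := congrArg (fun M => M 2 2) h
    simpa [Matrix.mul_apply, Fin.sum_univ_four] using this
  · have := congrArg (fun M => M 3 3) h
    simpa [Matrix.mul_apply, Fin.sum_univ_four] using this

omit [CharZero K] in
lemma upper_roots {t0 t1 t2 t3 l1 l2 l3 : K} {L : Matrix (Fin 4) (Fin 4) K}
    (hL : L = !![t0, l1, 0, 0; 0, t1, l2, 0; 0, 0, t2, l3; 0, 0, 0, t3])
    (h : L * (L - (1 : K) • 1) * (L - (4 : K) • 1) * (L - (9 : K) • 1) = 0) :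
    t0 * (t0 - 1) * (t0 - 4) * (t0 - 9) = 0 ∧ t1 * (t1 - 1) * (t1 - 4) * (t1 - 9) = 0 ∧
      t2 * (t2 - 1) * (t2 - 4) * (t2 - 9) = 0 ∧ t3 * (t3 - 1) * (t3 - 4) * (t3 - 9) = 0 := by
  subst hL
  rw [upper_sub, upper_sub, upper_sub] at h
  refine ⟨?_, ?_, ?_, ?_⟩
  · have := congrArg (fun M => M 0 0) h
    simpa [Matrix.mul_apply, Fin.sum_univ_four] using this
  · have := congrArg (fun M => M 1 1) h
    simpa [Matrix.mul_apply, Fin.sum_univ_four] using this
  · have := congrArg (fun M => M 2 2) h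
    simpa [Matrix.mul_apply, Fin.sum_univ_four] using this
  · have := congrArg (fun M => M 3 3) h
    simpa [Matrix.mul_apply, Fin.sum_univ_four] using this

omit [CharZero K] in
lemma MA_poly : MA K * (MA K - (1 : K) • 1) * (MA K - (4 : K) • 1) * (MA K - (9 : K) • 1) = 0 := by
  rw [MA, lower_sub, lower_sub, lower_sub]
  ext i j
  fin_cases i <;> fin_cases j <;> simp [Matrix.mul_apply, Fin.sum_univ_four] <;> norm_num

omit [CharZero K] in
lemma MB_poly : MB K * (MB K - (1 : K) • 1) * (MB K - (4 : K) • 1) * (MB K - (9 : K) • 1) = 0 := by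
  rw [MB, upper_sub, upper_sub, upper_sub]
  ext i j
  fin_cases i <;> fin_cases j <;> simp [Matrix.mul_apply, Fin.sum_univ_four]

omit [CharZero K] in
lemma trace_conj (b : Basis (Fin 4) K (Fin 4 → K)) (M : Matrix (Fin 4) (Fin 4) K) :
    Matrix.trace (LinearMap.toMatrix b b (Matrix.toLin' M)) = Matrix.trace M := by
  rw [← LinearMap.trace_eq_matrix_trace, LinearMap.trace_eq_matrix_trace K (Pi.basisFun K (Fin 4)),
    LinearMap.toMatrix_eq_toMatrix', LinearMap.toMatrix'_toLin']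

omit [CharZero K] in
lemma conj_mul (b : Basis (Fin 4) K (Fin 4 → K)) (M N : Matrix (Fin 4) (Fin 4) K) :
    LinearMap.toMatrix b b (Matrix.toLin' (M * N)) =
      LinearMap.toMatrix b b (Matrix.toLin' M) * LinearMap.toMatrix b b (Matrix.toLin' N) := by
  rw [← LinearMap.toMatrix_mul, Matrix.toLin'_mul]
  rfl

theorem no_structure (hsq : ¬ IsSquare (-1 : K)) (X Y Z : Module.End K (Fin 4 → K))
    (hXY : X * Y - Y * X = (2 : K) • X + (2 : K) • Y)
    (hYZ : Y * Z - Z * Y = (2 : K) • Y + (2 : K) • Z)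
    (hZX : Z * X - X * Z = (2 : K) • Z + (2 : K) • X)
    (hirr : ∀ W : Submodule K (Fin 4 → K), (∀ w ∈ W, X w ∈ W) → (∀ w ∈ W, Y w ∈ W) →
      (∀ w ∈ W, Z w ∈ W) → W = ⊥ ∨ W = ⊤)
    (hA : Matrix.toLin' (MA K) ∈ Submodule.span K {1, X, Y, X * Y})
    (hB : Matrix.toLin' (MB K) ∈ Submodule.span K {1, Y, Z, Y * Z}) : False := by
  obtain ⟨b, mX, mY, mZ⟩ := equitable_structure (by simp) X Y Z hXY hYZ hZX hirr
  obtain ⟨a0, a1, a2, a3, hA⟩ := mem_span_four hA
  obtain ⟨b0, b1, b2, b3, hB⟩ := mem_span_four hB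
  -- matrices in the basis `b`
  have MA' : LinearMap.toMatrix b b (Matrix.toLin' (MA K)) =
      !![a0 + 3 * (a2 - a1) - 9 * a3, 0, 0, 0;
        -2 * (a1 + 3 * a3), a0 + (a2 - a1) - a3, 0, 0;
        0, -2 * (a1 + a3), a0 - (a2 - a1) - a3, 0;
        0, 0, -2 * (a1 - a3), a0 - 3 * (a2 - a1) - 9 * a3] := by
    rw [hA]
    simp only [map_add, map_smul, LinearMap.toMatrix_mul, LinearMap.toMatrix_one, mX, mY]
    ext i j
    fin_cases i <;> fin_cases j <;>
      simp [Matrix.mul_apply, Fin.sum_univ_four] <;> ring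
  have MB' : LinearMap.toMatrix b b (Matrix.toLin' (MB K)) =
      !![b0 + 3 * (b1 - b2) - 9 * b3, 6 * (b2 + 3 * b3), 0, 0;
        0, b0 + (b1 - b2) - b3, 8 * (b2 + b3), 0;
        0, 0, b0 - (b1 - b2) - b3, 6 * (b2 - b3);
        0, 0, 0, b0 - 3 * (b1 - b2) - 9 * b3] := by
    rw [hB]
    simp only [map_add, map_smul, LinearMap.toMatrix_mul, LinearMap.toMatrix_one, mY, mZ]
    ext i j
    fin_cases i <;> fin_cases j <;>
      simp [Matrix.mul_apply, Fin.sum_univ_four] <;> ring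
  obtain ⟨M, hM⟩ : ∃ M, M = LinearMap.toMatrix b b (Matrix.toLin' (MA K)) := ⟨_, rfl⟩
  obtain ⟨N, hN⟩ : ∃ N, N = LinearMap.toMatrix b b (Matrix.toLin' (MB K)) := ⟨_, rfl⟩
  rw [← hM] at MA'
  rw [← hN] at MB'
  have one' : LinearMap.toMatrix b b (Matrix.toLin' (1 : Matrix (Fin 4) (Fin 4) K)) = 1 := by
    rw [Matrix.toLin'_one, LinearMap.toMatrix_id]
  have pM : M * (M - (1 : K) • 1) * (M - (4 : K) • 1) * (M - (9 : K) • 1) = 0 := by
    have := congrArg (fun T => LinearMap.toMatrix b b (Matrix.toLin' T)) (MA_poly (K := K))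
    simp only [conj_mul, map_sub, map_smul, one', map_zero, ← hM] at this
    exact this
  have pN : N * (N - (1 : K) • 1) * (N - (4 : K) • 1) * (N - (9 : K) • 1) = 0 := by
    have := congrArg (fun T => LinearMap.toMatrix b b (Matrix.toLin' T)) (MB_poly (K := K))
    simp only [conj_mul, map_sub, map_smul, one', map_zero, ← hN] at this
    exact this
  have rM := lower_roots MA' pM
  have rN := upper_roots MB' pN
  have e1 : Matrix.trace M = 14 := by
    rw [hM, trace_conj]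
    simp [MA, Matrix.trace, Fin.sum_univ_four]; norm_num
  have e2 : Matrix.trace N = 14 := by
    rw [hN, trace_conj]
    simp [MB, Matrix.trace, Fin.sum_univ_four]; norm_num
  have e3 : Matrix.trace (M * N) = -8 := by
    rw [hM, hN, ← conj_mul, trace_conj]
    simp [MA, MB, Matrix.trace, Fin.sum_univ_four]; norm_num
  have e4 : Matrix.trace (M * M * N) = -84 := by
    rw [hM, hN, ← conj_mul, ← conj_mul, trace_conj]
    simp [MA, MB, Matrix.trace, Fin.sum_univ_four, Matrix.mul_apply]; norm_num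
  rw [MA'] at e1 e3 e4
  rw [MB'] at e2 e3 e4
  simp only [Matrix.trace, Matrix.diag, Matrix.mul_apply, Fin.sum_univ_four] at e1 e2 e3 e4
  simp at e1 e2 e3 e4
  exact arith hsq a0 a1 a2 a3 b0 b1 b2 b3 _ _ _ _ _ _ _ _ rfl rfl rfl rfl rfl rfl rfl rfl
    rM.1 rM.2.1 rM.2.2.1 rM.2.2.2 rN.1 rN.2.1 rN.2.2.1 rN.2.2.2 (by linear_combination e1)
    (by linear_combination e2) (by linear_combination e3) (by linear_combination e4)

end No

/-- **Main theorem.**  `-1` is not a square in `ℚ` and `ℝ`; and if `K` is a field of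
characteristic zero in which `-1` is not a square, then there is a Leonard pair `A, B` on `K⁴`
with `β = 2` such that for every irreducible `sl₂(K)`-module structure on `K⁴` and every equitable
basis of `sl₂(K)` with action `x, y, z`, not both `A ∈ span {I, x, y, xy}` and
`B ∈ span {I, y, z, yz}`. -/
theorem result : (¬ IsSquare (-1 : ℚ) ∧ ¬ IsSquare (-1 : ℝ)) ∧
    ∀ (K : Type) [Field K] [CharZero K], ¬ IsSquare (-1 : K) →
      ∃ A B : Module.End K (Fin 4 → K), IsLeonardPair 3 A B ∧ BetaTwo 3 A B ∧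
        ¬ FromModule A B := by
  refine ⟨⟨?_, ?_⟩, ?_⟩
  · rintro ⟨r, hr⟩
    nlinarith [mul_self_nonneg r]
  · rintro ⟨r, hr⟩
    nlinarith [mul_self_nonneg r]
  · intro K _ _ hsq
    obtain ⟨b, hb, hd⟩ := splits_A (K := K)
    refine ⟨Matrix.toLin' (MA K), Matrix.toLin' (MB K), ⟨splits_B, ⟨b, hb⟩⟩, ⟨b, hb, ?_⟩, ?_⟩
    · intro i₀ i₁ i₂ i₃ h1 h2 h3
      have k0 : i₀ = 0 := Fin.ext (by simp; omega)
      have k1 : i₁ = 1 := Fin.ext (by simp; omega)
      have k2 : i₂ = 2 := Fin.ext (by simp; omega)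
      have k3 : i₃ = 3 := Fin.ext (by simp; omega)
      rw [hd, k0, k1, k2, k3]
      simp
      norm_num
    · rintro ⟨_, _, e, hirr, he, hcon⟩
      obtain ⟨x, hx⟩ : ∃ x, x = LieModule.toEnd K (sl2 K) (Fin 4 → K) (e 0) := ⟨_, rfl⟩
      obtain ⟨y, hy⟩ : ∃ y, y = LieModule.toEnd K (sl2 K) (Fin 4 → K) (e 1) := ⟨_, rfl⟩
      obtain ⟨z, hz⟩ : ∃ z, z = LieModule.toEnd K (sl2 K) (Fin 4 → K) (e 2) := ⟨_, rfl⟩
      rw [← hx, ← hy, ← hz] at hcon
      have br : ∀ u v : sl2 K, LieModule.toEnd K (sl2 K) (Fin 4 → K) ⁅u, v⁆ =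
          LieModule.toEnd K (sl2 K) (Fin 4 → K) u * LieModule.toEnd K (sl2 K) (Fin 4 → K) v -
          LieModule.toEnd K (sl2 K) (Fin 4 → K) v * LieModule.toEnd K (sl2 K) (Fin 4 → K) u := by
        intro u v
        refine LinearMap.ext fun m => ?_
        simp only [LieModule.toEnd_apply_apply, LinearMap.sub_apply, Module.End.mul_apply, lie_lie]
      refine no_structure hsq x y z ?_ ?_ ?_ ?_ hcon.1 hcon.2
      · rw [hx, hy, ← br, he.1, map_add, map_smul, map_smul]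
      · rw [hy, hz, ← br, he.2.1, map_add, map_smul, map_smul]
      · rw [hz, hx, ← br, he.2.2, map_add, map_smul, map_smul]
      · intro W wx wy wz
        have hW : ∀ u : sl2 K, ∀ m ∈ W, ⁅u, m⁆ ∈ W := by
          intro u m hm
          have hu : u = e.repr u 0 • e 0 + e.repr u 1 • e 1 + e.repr u 2 • e 2 := by
            conv_lhs => rw [← e.sum_repr u, Fin.sum_univ_three]
          rw [hu, add_lie, add_lie, smul_lie, smul_lie, smul_lie]
          refine W.add_mem (W.add_mem (W.smul_mem _ ?_) (W.smul_mem _ ?_)) (W.smul_mem _ ?_)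
          · have := wx m hm
            rwa [hx, LieModule.toEnd_apply_apply] at this
          · have := wy m hm
            rwa [hy, LieModule.toEnd_apply_apply] at this
          · have := wz m hm
            rwa [hz, LieModule.toEnd_apply_apply] at this
        let N : LieSubmodule K (sl2 K) (Fin 4 → K) := { W with lie_mem := fun {u m} hm => hW u m hm }
        rcases eq_bot_or_eq_top N with h1 | h1
        · left
          have := congrArg (fun T : LieSubmodule K (sl2 K) (Fin 4 → K) => T.toSubmodule) h1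
          simpa [N] using this
        · right
          have := congrArg (fun T : LieSubmodule K (sl2 K) (Fin 4 → K) => T.toSubmodule) h1
          simpa [N] using this

end Pool.Agent.Results.MP_d63bef_al.NonSplit
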